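import Pool.Agent.Lib.Tower36.CntN

/-! Many units of bounded house, with no logarithmic loss. -/

namespace Pool.Agent.Tower36

open Finset Module NumberField
open scoped nonZeroDivisors

variable {M : Type} [Field M] [NumberField M]

/-- A number above the Minkowski bound. -/
noncomputable def YY (M : Type) [Field M] [NumberField M] : ℝ := 2 ^ (finrank ℚ M + 1) * √|(discr M : ℝ)|

lemma one_le_sqrt_discr : 1 ≤ √|(discr M : ℝ)| := by
  refine Real.one_le_sqrt.2 ?_
  exact_mod_cast Int.one_le_abs (discr_ne_zero M)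

lemma two_le_YY : 2 ≤ YY M := by
  have h1 := one_le_sqrt_discr (M := M)
  have h2 : (1 : ℝ) ≤ 2 ^ finrank ℚ M := one_le_pow₀ one_le_two
  unfold YY
  rw [pow_succ]
  nlinarith [mul_le_mul h2 h1 zero_le_one (by linarith)]

lemma mink_le : mixedEmbedding.minkowskiBound M 1 ≤ ENNReal.ofReal (2 ^ finrank ℚ M * √|(discr M : ℝ)|) := by
  unfold mixedEmbedding.minkowskiBound
  rw [mixedEmbedding.volume_fundamentalDomain_fractionalIdealLatticeBasis,
    mixedEmbedding.volume_fundamentalDomain_latticeBasis, mixedEmbedding.finrank,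
    ENNReal.ofReal_mul (by positivity)]
  simp only [Units.val_one, map_one, Rat.cast_one, ENNReal.ofReal_one, one_mul]
  have e : ((NNReal.sqrt ‖discr M‖₊ : NNReal) : ENNReal) = ENNReal.ofReal √|(discr M : ℝ)| := by
    rw [← ENNReal.ofReal_coe_nnreal, Real.coe_sqrt, coe_nnnorm, Int.norm_eq_abs]
  rw [e]
  have h1 : (2⁻¹ : ENNReal) ^ InfinitePlace.nrComplexPlaces M ≤ 1 :=
    pow_le_one₀ zero_le (by simp)
  have h2 : (2 : ENNReal) ^ finrank ℚ M = ENNReal.ofReal (2 ^ finrank ℚ M) := by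
    rw [ENNReal.ofReal_pow (by norm_num)]; simp
  calc (2⁻¹ : ENNReal) ^ InfinitePlace.nrComplexPlaces M * ENNReal.ofReal √|(discr M : ℝ)| *
        2 ^ finrank ℚ M ≤ 1 * ENNReal.ofReal √|(discr M : ℝ)| * 2 ^ finrank ℚ M := by gcongr
    _ = _ := by rw [one_mul, mul_comm, h2]

/-- Minkowski: an integer with almost prescribed sizes. -/
lemma exists_elt (g : InfinitePlace M → ℝ) (hg : ∑ w, (w.mult : ℝ) * g w = Real.log (YY M)) :
    ∃ γ : 𝓞 M, γ ≠ 0 ∧ (Ideal.absNorm (Ideal.span {γ}) : ℝ) ≤ YY M ∧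
      ∑ w : InfinitePlace M, |g w - Real.log (w γ)| ≤ Real.log (YY M) := by
  have hs := one_le_sqrt_discr (M := M)
  have hY := two_le_YY (M := M)
  let f : InfinitePlace M → NNReal := fun w ↦ ⟨Real.exp (g w), (Real.exp_pos _).le⟩
  have hf : ((∏ w, f w ^ w.mult : NNReal) : ℝ) = YY M := by
    push_cast
    have : ∀ w : InfinitePlace M, (f w : ℝ) ^ w.mult = Real.exp (w.mult * g w) := fun w ↦ by
      rw [Real.exp_nat_mul]; rfl
    rw [prod_congr rfl fun w _ ↦ this w, ← Real.exp_sum, hg, Real.exp_log (by linarith)]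
  obtain ⟨γ, hγ0, haw⟩ := mixedEmbedding.exists_ne_zero_mem_ringOfIntegers_lt M (f := f) (by
      refine mink_le.trans_lt ?_
      rw [mixedEmbedding.convexBodyLT_volume]
      refine lt_of_lt_of_le ?_ (le_mul_of_one_le_left zero_le
        (by exact_mod_cast mixedEmbedding.one_le_convexBodyLTFactor M))
      rw [← ENNReal.ofReal_coe_nnreal, hf, ENNReal.ofReal_lt_ofReal_iff (by linarith), YY, pow_succ]
      have : (0 : ℝ) < 2 ^ finrank ℚ M * √|(discr M : ℝ)| := by positivity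
      linarith)
  have hw : ∀ w : InfinitePlace M, 0 < w (γ : M) := fun w ↦
    InfinitePlace.pos_iff.2 (RingOfIntegers.coe_ne_zero_iff.2 hγ0)
  have hlt : ∀ w : InfinitePlace M, Real.log (w (γ : M)) < g w := fun w ↦
    (Real.log_lt_iff_lt_exp (hw w)).2 (haw w)
  have hn : ∏ w : InfinitePlace M, w (γ : M) ^ w.mult = Ideal.absNorm (Ideal.span {γ}) := by
    rw [InfinitePlace.prod_eq_abs_norm, ← Algebra.coe_norm_int, Ideal.absNorm_span_singleton, Nat.cast_natAbs]
    push_cast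
    rfl
  have hN : (1 : ℝ) ≤ Ideal.absNorm (Ideal.span {γ}) := by
    have : Ideal.absNorm (Ideal.span {γ}) ≠ 0 := by
      rw [Ne, Ideal.absNorm_eq_zero_iff, Ideal.span_singleton_eq_bot]; exact hγ0
    exact_mod_cast Nat.one_le_iff_ne_zero.2 this
  have hl : ∑ w : InfinitePlace M, (w.mult : ℝ) * Real.log (w (γ : M)) =
      Real.log (Ideal.absNorm (Ideal.span {γ})) := by
    rw [← hn, Real.log_prod fun w _ ↦ (pow_pos (hw w) _).ne']
    exact sum_congr rfl fun w _ ↦ (Real.log_pow _ _).symm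
  have hd : ∑ w : InfinitePlace M, (w.mult : ℝ) * (g w - Real.log (w (γ : M))) =
      Real.log (YY M) - Real.log (Ideal.absNorm (Ideal.span {γ})) := by
    simp only [mul_sub, sum_sub_distrib, hg, hl]
  have hle : ∑ w : InfinitePlace M, |g w - Real.log (w γ)| ≤
      ∑ w : InfinitePlace M, (w.mult : ℝ) * (g w - Real.log (w (γ : M))) := by
    refine sum_le_sum fun w _ => ?_
    rw [abs_of_nonneg (sub_nonneg.2 (hlt w).le)]
    exact le_mul_of_one_le_left (sub_nonneg.2 (hlt w).le) (by exact_mod_cast w.one_le_mult)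
  have h0 : 0 ≤ ∑ w : InfinitePlace M, |g w - Real.log (w γ)| := sum_nonneg fun _ _ => abs_nonneg _
  refine ⟨γ, hγ0, ?_, by linarith [Real.log_nonneg hN]⟩
  rw [← Real.log_le_log_iff (by linarith) (by linarith)]
  linarith

lemma exists_big_fiber {α β : Type} [DecidableEq β] (T : Finset α) (hT : T.Nonempty) (f : α → β) :
    ∃ i ∈ T, T.card ≤ #{a ∈ T | f a = f i} * (T.image f).card := by
  obtain ⟨i, hi, hm⟩ := exists_max_image T (fun i => #{a ∈ T | f a = f i}) hT
  refine ⟨i, hi, card_le_mul_card_image T _ fun b hb => ?_⟩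
  obtain ⟨j, hj, rfl⟩ := mem_image.1 hb
  exact hm j hj

/-- Units near many of the prescribed shapes. -/
theorem units_near {ι : Type} (T : Finset ι) (hT : T.Nonempty) (t : ι → InfinitePlace M → ℝ)
    (ht : ∀ i ∈ T, ∑ w, (w.mult : ℝ) * t i w = 0) :
    ∃ T' ⊆ T, ∃ i₀ ∈ T, ∃ u : ι → (𝓞 M)ˣ, (T.card : ℝ) ≤ T'.card * (YY M ^ 2 * 2 ^ finrank ℚ M) ∧
      ∀ i ∈ T', ∑ w : InfinitePlace M, |Real.log (w (u i : M)) - (t i w - t i₀ w)| ≤ 2 * Real.log (YY M) := by
  classical
  have hn : (0 : ℝ) < finrank ℚ M := by exact_mod_cast finrank_pos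
  set c := Real.log (YY M) / finrank ℚ M with hc
  have h1 : ∀ i, ∃ γ : 𝓞 M, i ∈ T → γ ≠ 0 ∧ (Ideal.absNorm (Ideal.span {γ}) : ℝ) ≤ YY M ∧
      ∑ w : InfinitePlace M, |t i w + c - Real.log (w γ)| ≤ Real.log (YY M) := by
    intro i
    by_cases hi : i ∈ T
    · obtain ⟨γ, h⟩ := exists_elt (fun w => t i w + c) (by
        simp only [mul_add, sum_add_distrib, ht i hi, zero_add, ← sum_mul]
        rw [← Nat.cast_sum, InfinitePlace.sum_mult_eq, hc, mul_div_cancel₀ _ hn.ne'])
      exact ⟨γ, fun _ => h⟩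
    · exact ⟨0, fun h => absurd h hi⟩
  choose γ hγ using h1
  obtain ⟨i₀, hi₀, hcard⟩ := exists_big_fiber T hT fun i => Ideal.span {γ i}
  have h2 : ∀ i, ∃ u : (𝓞 M)ˣ, Ideal.span {γ i} = Ideal.span {γ i₀} → γ i₀ * u = γ i := by
    intro i
    by_cases h : Ideal.span {γ i} = Ideal.span {γ i₀}
    · obtain ⟨u, hu⟩ := Ideal.span_singleton_eq_span_singleton.1 h.symm
      exact ⟨u, fun _ => hu⟩
    · exact ⟨1, fun h' => absurd h' h⟩
  choose u hu using h2
  refine ⟨_, filter_subset (fun a => Ideal.span {γ a} = Ideal.span {γ i₀}) T, i₀, hi₀, u, ?_, fun i hi => ?_⟩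
  · have := card_ideals_le (YY M) (T.image fun i => Ideal.span {γ i}) (by
      intro I hI
      obtain ⟨i, hi, rfl⟩ := mem_image.1 hI
      exact ⟨by rw [Ne, Ideal.span_singleton_eq_bot]; exact (hγ i hi).1, (hγ i hi).2.1⟩)
    calc (T.card : ℝ) ≤ (#{a ∈ T | Ideal.span {γ a} = Ideal.span {γ i₀}} : ℕ) *
          ((T.image fun i => Ideal.span {γ i}).card : ℝ) := by exact_mod_cast hcard
      _ ≤ _ := by gcongr
  · obtain ⟨hiT, he⟩ := mem_filter.1 hi
    have e : ∀ w : InfinitePlace M, Real.log (w (u i : M)) = Real.log (w (γ i)) - Real.log (w (γ i₀)) := by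
      intro w
      have h0 : w (γ i₀ : M) ≠ 0 :=
        (InfinitePlace.pos_iff.2 (RingOfIntegers.coe_ne_zero_iff.2 (hγ i₀ hi₀).1)).ne'
      have h3 : w (u i : M) ≠ 0 := (InfinitePlace.pos_iff.2 (Units.coe_ne_zero (u i))).ne'
      have h4 : (γ i : M) = (γ i₀ : M) * (u i : M) := by rw [← hu i he]; simp
      rw [h4, map_mul, Real.log_mul h0 h3]; ring
    calc ∑ w : InfinitePlace M, |Real.log (w (u i : M)) - (t i w - t i₀ w)|
        ≤ ∑ w : InfinitePlace M, (|t i w + c - Real.log (w (γ i))| + |t i₀ w + c - Real.log (w (γ i₀))|) := by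
          refine sum_le_sum fun w _ => ?_
          rw [e w, show Real.log (w (γ i)) - Real.log (w (γ i₀)) - (t i w - t i₀ w) =
            (t i₀ w + c - Real.log (w (γ i₀))) - (t i w + c - Real.log (w (γ i))) by ring]
          exact (abs_sub _ _).trans (add_comm _ _).le
      _ ≤ _ := by
          rw [sum_add_distrib]
          linarith [(hγ i hiT).2.2, (hγ i₀ hi₀).2.2]

lemma sum_half_le (B : Finset ℕ) (c : ℕ) : ∑ k ∈ B, (1 / 2 : ℝ) ^ ((k : ℤ) - c).natAbs ≤ 4 := by
  classical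
  obtain ⟨N, hN⟩ : ∃ N, ∀ k ∈ B, ((k : ℤ) - c).natAbs < N :=
    ⟨B.sup (fun k => ((k : ℤ) - c).natAbs) + 1, fun k hk =>
      Nat.lt_succ_of_le (le_sup (f := fun k : ℕ => ((k : ℤ) - c).natAbs) hk)⟩
  let φ : ℕ → Bool × ℕ := fun k => (decide (c ≤ k), ((k : ℤ) - c).natAbs)
  have hφ : Set.InjOn φ B := by
    intro a _ b _ e
    simp only [φ, Prod.mk.injEq, decide_eq_decide] at e
    omega
  calc ∑ k ∈ B, (1 / 2 : ℝ) ^ ((k : ℤ) - c).natAbs = ∑ x ∈ B.image φ, (1 / 2 : ℝ) ^ x.2 := by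
        rw [sum_image hφ]
    _ ≤ ∑ x ∈ (univ : Finset Bool) ×ˢ range N, (1 / 2 : ℝ) ^ x.2 := by
        refine sum_le_sum_of_subset_of_nonneg (fun x hx => ?_) fun _ _ _ => by positivity
        obtain ⟨k, hk, rfl⟩ := mem_image.1 hx
        exact mem_product.2 ⟨mem_univ _, mem_range.2 (hN k hk)⟩
    _ ≤ 4 := by
        rw [sum_product]
        simp only [sum_const, card_univ, Fintype.card_bool, nsmul_eq_mul, Nat.cast_ofNat]
        linarith [sum_geometric_two_le N]

/-- Integer points of an `l¹` ball. -/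
lemma card_ball_le {ι : Type} [Fintype ι] (A : Finset (ι → ℕ)) (c : ι → ℕ) (R : ℝ)
    (h : ∀ a ∈ A, ∑ j, |(a j : ℝ) - c j| ≤ R) : (A.card : ℝ) ≤ Real.exp R * 4 ^ Fintype.card ι := by
  classical
  have hsub : A ⊆ Fintype.piFinset fun j => A.image fun a => a j :=
    fun a ha => Fintype.mem_piFinset.2 fun j => mem_image_of_mem _ ha
  calc (A.card : ℝ) = ∑ a ∈ A, (1 : ℝ) := by simp
    _ ≤ ∑ a ∈ A, Real.exp R * ∏ j, (1 / 2 : ℝ) ^ ((a j : ℤ) - c j).natAbs := by
      refine sum_le_sum fun a ha => ?_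
      have h1 : ∏ j, Real.exp (-|(a j : ℝ) - c j|) ≤ ∏ j, (1 / 2 : ℝ) ^ ((a j : ℤ) - c j).natAbs := by
        refine prod_le_prod (fun _ _ => (Real.exp_pos _).le) fun j _ => ?_
        have e : |(a j : ℝ) - c j| = (((a j : ℤ) - c j).natAbs : ℕ) := by
          rw [Nat.cast_natAbs]; push_cast; rfl
        rw [e, ← mul_neg_one, Real.exp_nat_mul]
        refine pow_le_pow_left₀ (Real.exp_pos _).le ?_ _
        rw [Real.exp_neg, one_div]
        exact inv_anti₀ two_pos (by linarith [Real.add_one_le_exp 1])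
      rw [← Real.exp_sum, sum_neg_distrib] at h1
      calc (1 : ℝ) ≤ Real.exp (R + -∑ j, |(a j : ℝ) - c j|) := Real.one_le_exp (by linarith [h a ha])
        _ ≤ _ := by rw [Real.exp_add]; gcongr
    _ ≤ Real.exp R * ∑ a ∈ Fintype.piFinset fun j => A.image fun a => a j,
          ∏ j, (1 / 2 : ℝ) ^ ((a j : ℤ) - c j).natAbs := by
      rw [← mul_sum]
      refine mul_le_mul_of_nonneg_left (sum_le_sum_of_subset_of_nonneg hsub fun _ _ _ => ?_) (Real.exp_pos _).le
      positivity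
    _ ≤ Real.exp R * 4 ^ Fintype.card ι := by
      rw [← prod_univ_sum (fun j => A.image fun a => a j) fun j k => (1 / 2 : ℝ) ^ ((k : ℤ) - c j).natAbs]
      refine mul_le_mul_of_nonneg_left ?_ (Real.exp_pos _).le
      rw [← card_univ, ← prod_const]
      exact prod_le_prod (fun j _ => sum_nonneg fun _ _ => by positivity) fun j _ => sum_half_le _ _

omit [NumberField M] in
lemma comap_comap {s : M →+* M} (hs : ∀ x, s (s x) = x) (w : InfinitePlace M) : (w.comap s).comap s = w := by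
  rw [← InfinitePlace.comap_comp, show s.comp s = RingHom.id M from RingHom.ext hs, InfinitePlace.comap_id]

omit [NumberField M] in
lemma mult_comap {s : M →+* M} (hs : ∀ x, s (s x) = x) (w : InfinitePlace M) : (w.comap s).mult = w.mult := by
  refine le_antisymm (InfinitePlace.mult_comap_le _ _) ?_
  conv_lhs => rw [← comap_comap hs w]
  exact InfinitePlace.mult_comap_le _ _

/-- Many norm-one units `u / s u` of bounded house. -/
theorem famU (s : M →+* M) (hs : ∀ x, s (s x) = x) (W : Finset (InfinitePlace M))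
    (hW : ∀ w ∈ W, w.comap s ∉ W) (H : ℝ) (hH : Real.log (YY M) ≤ H) :
    ∃ U : Finset M, H ^ W.card ≤ U.card * (YY M ^ 6 * 8 ^ finrank ℚ M) ∧
      ∀ y ∈ U, ∃ u : (𝓞 M)ˣ, y = (u : M) / s u ∧ ∀ w : InfinitePlace M, |Real.log (w (u : M))| ≤ 4 * H := by
  classical
  have hY := two_le_YY (M := M)
  have hl : 0 ≤ Real.log (YY M) := Real.log_nonneg (by linarith)
  have hH0 : 0 ≤ H := hl.trans hH
  let T : Finset (W → ℕ) := Fintype.piFinset fun _ => range (⌊H⌋₊ + 1)
  let t : (W → ℕ) → InfinitePlace M → ℝ := fun a w =>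
    if h : w ∈ W then a ⟨w, h⟩ else if h' : w.comap s ∈ W then -(a ⟨_, h'⟩ : ℝ) else 0
  have tW : ∀ a (j : W), t a j = a j := fun a j => by simp only [t, dif_pos j.2]
  have ts : ∀ a w, t a (w.comap s) = -t a w := by
    intro a w
    by_cases h : w ∈ W
    · simp only [t, dif_neg (hW w h), dif_pos h, comap_comap hs]
    · by_cases h' : w.comap s ∈ W
      · simp only [t, dif_pos h', dif_neg h, neg_neg]
      · have h2 : (w.comap s).comap s ∉ W := by rwa [comap_comap hs]
        simp only [t, dif_neg h', dif_neg h2, dif_neg h, neg_zero]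
  let e : InfinitePlace M ≃ InfinitePlace M :=
    ⟨fun w => w.comap s, fun w => w.comap s, comap_comap hs, comap_comap hs⟩
  have tb : ∀ a ∈ T, ∀ w, |t a w| ≤ H := by
    intro a ha w
    have h1 : ∀ j, (a j : ℝ) ≤ H := fun j =>
      (Nat.cast_le.2 (Nat.lt_succ_iff.1 (mem_range.1 (Fintype.mem_piFinset.1 ha j)))).trans (Nat.floor_le hH0)
    simp only [t]
    split_ifs
    · rw [Nat.abs_cast]; exact h1 _
    · rw [abs_neg, Nat.abs_cast]; exact h1 _
    · simpa using hH0
  obtain ⟨T', hT', a₀, ha₀, u, hc, hu⟩ := units_near T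
    ⟨fun _ => 0, Fintype.mem_piFinset.2 fun _ => mem_range.2 (Nat.succ_pos _)⟩ t (by
      intro a _
      have h1 := e.sum_comp fun w => (w.mult : ℝ) * t a w
      simp only [e, Equiv.coe_fn_mk, mult_comap hs, ts, mul_neg, sum_neg_distrib] at h1
      linarith)
  let y : (W → ℕ) → M := fun a => (u a : M) / s (u a)
  let d : (W → ℕ) → InfinitePlace M → ℝ := fun a w => Real.log (w (u a : M)) - (t a w - t a₀ w)
  have hy : ∀ a (j : W), Real.log (j.1 (y a)) = 2 * ((a j : ℝ) - a₀ j) + d a j - d a (j.1.comap s) := by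
    intro a j
    have h3 : (u a : M) ≠ 0 := Units.coe_ne_zero (u a)
    have h4 : s (u a : M) ≠ 0 := (map_ne_zero s).2 h3
    simp only [y, d, ts, tW, map_div₀, InfinitePlace.comap_apply]
    rw [Real.log_div (InfinitePlace.pos_iff.2 h3).ne' (InfinitePlace.pos_iff.2 h4).ne']
    ring
  have hd1 : ∀ a ∈ T', ∑ j : W, |d a j| ≤ 2 * Real.log (YY M) := by
    intro a ha
    rw [sum_coe_sort W fun w => |d a w|]
    exact (sum_le_sum_of_subset_of_nonneg (subset_univ W) fun _ _ _ => abs_nonneg _).trans (hu a ha)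
  have hd2 : ∀ a ∈ T', ∑ j : W, |d a (j.1.comap s)| ≤ 2 * Real.log (YY M) := by
    intro a ha
    rw [sum_coe_sort W fun w => |d a (w.comap s)|]
    refine (sum_le_sum_of_subset_of_nonneg (subset_univ W) fun _ _ _ => abs_nonneg _).trans ?_
    exact (e.sum_comp fun w => |d a w|).le.trans (hu a ha)
  have hfib : ∀ b ∈ T', (#{a ∈ T' | y a = y b} : ℝ) ≤ YY M ^ 4 * 4 ^ W.card := by
    intro b hb
    have := card_ball_le {a ∈ T' | y a = y b} b (4 * Real.log (YY M)) (by
      intro a ha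
      obtain ⟨ha, he⟩ := mem_filter.1 ha
      have h1 : ∑ j, 2 * |(a j : ℝ) - b j| ≤
          ∑ j : W, (|d a j| + |d a (j.1.comap s)| + |d b j| + |d b (j.1.comap s)|) := by
        refine sum_le_sum fun j _ => ?_
        have h2 := hy a j
        rw [he, hy b j] at h2
        rcases abs_cases ((a j : ℝ) - b j) with ⟨h, -⟩ | ⟨h, -⟩ <;> rw [h] <;>
          linarith [le_abs_self (d a j), neg_abs_le (d a j), le_abs_self (d b j), neg_abs_le (d b j),
            le_abs_self (d a (j.1.comap s)), neg_abs_le (d a (j.1.comap s)),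
            le_abs_self (d b (j.1.comap s)), neg_abs_le (d b (j.1.comap s))]
      rw [← mul_sum, sum_add_distrib, sum_add_distrib, sum_add_distrib] at h1
      linarith [hd1 a ha, hd2 a ha, hd1 b hb, hd2 b hb])
    rwa [Fintype.card_coe, show (4 : ℝ) * Real.log (YY M) = ((4 : ℕ) : ℝ) * Real.log (YY M) by norm_num,
      Real.exp_nat_mul, Real.exp_log (by linarith)] at this
  refine ⟨T'.image y, ?_, fun z hz => ?_⟩
  · have h1 : (T'.card : ℝ) ≤ (T'.image y).card * (YY M ^ 4 * 4 ^ W.card) := by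
      rw [card_eq_sum_card_image y T', Nat.cast_sum, ← nsmul_eq_mul]
      refine sum_le_card_nsmul _ _ _ fun z hz => ?_
      obtain ⟨b, hb, rfl⟩ := mem_image.1 hz
      exact hfib b hb
    have h2 : H ^ W.card ≤ T.card := by
      rw [Fintype.card_piFinset, prod_const, card_range, card_univ, Fintype.card_coe]
      push_cast
      exact pow_le_pow_left₀ hH0 (Nat.lt_floor_add_one H).le _
    have h3 : W.card ≤ finrank ℚ M := by
      refine (card_le_univ W).trans ?_
      rw [← InfinitePlace.sum_mult_eq, ← card_univ, card_eq_sum_ones]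
      exact sum_le_sum fun w _ => w.mult_pos
    have h4 : (4 : ℝ) ^ W.card ≤ 4 ^ finrank ℚ M := pow_le_pow_right₀ (by norm_num) h3
    calc H ^ W.card ≤ T'.card * (YY M ^ 2 * 2 ^ finrank ℚ M) := h2.trans hc
      _ ≤ (T'.image y).card * (YY M ^ 4 * 4 ^ finrank ℚ M) * (YY M ^ 2 * 2 ^ finrank ℚ M) := by
        gcongr
        exact h1.trans (by gcongr)
      _ = _ := by rw [show (8 : ℝ) = 4 * 2 by norm_num, mul_pow]; ring
  · obtain ⟨a, ha, rfl⟩ := mem_image.1 hz
    refine ⟨u a, rfl, fun w => ?_⟩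
    have h1 : |d a w| ≤ 2 * Real.log (YY M) :=
      (single_le_sum (f := fun w => |d a w|) (fun _ _ => abs_nonneg _) (mem_univ w)).trans (hu a ha)
    have h2 := abs_le.1 (tb a (hT' ha) w)
    have h3 := abs_le.1 (tb a₀ ha₀ w)
    have h4 := abs_le.1 h1
    simp only [d] at h4
    rw [abs_le]
    constructor <;> linarith

end Pool.Agent.Tower36
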