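import Mathlib

/-! A non-residue of small norm modulo a prime of degree one. -/

namespace Pool.Agent.Tower36

open NumberField Ideal Module
open scoped nonZeroDivisors

variable {L : Type} [Field L] [NumberField L]

lemma phi_ne_zero {p : ℕ} (φ : 𝓞 L →+* ZMod p) {a : 𝓞 L} (ha : a ≠ 0)
    (h : absNorm (span {a}) < p) : φ a ≠ 0 := by
  intro e
  obtain ⟨c, hc⟩ := mem_span_singleton'.1 (absNorm_mem (span {a}))
  have h1 : φ (absNorm (span {a}) : 𝓞 L) = 0 := by rw [← hc, map_mul, e, mul_zero]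
  rw [map_natCast, ZMod.natCast_eq_zero_iff] at h1
  have h2 : absNorm (span {a}) ≠ 0 := by
    rw [Ne, absNorm_eq_zero_iff, span_singleton_eq_bot]; exact ha
  exact absurd (Nat.le_of_dvd (Nat.pos_of_ne_zero h2) h1) (not_le.2 h)

/-- Every nonzero ideal becomes principal after multiplication by an ideal of norm at most `B`. -/
def Small (L : Type) [Field L] [NumberField L] (B : ℝ) : Prop :=
  ∀ I : Ideal (𝓞 L), I ≠ ⊥ → ∃ (A : Ideal (𝓞 L)) (g : 𝓞 L), g ≠ 0 ∧ (absNorm A : ℝ) ≤ B ∧ span {g} = I * A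

theorem nonres_of_small {p : ℕ} [Fact p.Prime] (φ : 𝓞 L →+* ZMod p) (l : 𝓞 L) (hl : ¬IsSquare (φ l))
    (Q B : ℝ) (hQ1 : 1 ≤ Q) (hQ : ∀ P : Ideal (𝓞 L), P.IsPrime → l ∈ P → (absNorm P : ℝ) ≤ Q)
    (hB : Small L B) (hp : Q * B ^ 2 < p) :
    ∃ a : 𝓞 L, a ≠ 0 ∧ (absNorm (span {a}) : ℝ) ≤ Q * B ^ 2 ∧ ¬IsSquare (φ a) := by
  classical
  by_contra hcon
  push Not at hcon
  have hl0 : l ≠ 0 := by rintro rfl; exact hl (by simp)
  have hB1 : 1 ≤ B := by
    obtain ⟨A, g, hg, hA, e⟩ := hB ⊤ top_ne_bot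
    have : absNorm A ≠ 0 := by
      rw [Ne, absNorm_eq_zero_iff]; rintro rfl
      exact hg (span_singleton_eq_bot.1 (by rw [e, mul_bot]))
    exact le_trans (by exact_mod_cast Nat.one_le_iff_ne_zero.2 this) hA
  set χ := quadraticChar (ZMod p) with hχ
  have key : ∀ a : 𝓞 L, a ≠ 0 → (absNorm (span {a}) : ℝ) ≤ Q * B ^ 2 → χ (φ a) = 1 := by
    intro a ha h
    have h0 := phi_ne_zero φ ha (by exact_mod_cast h.trans_lt hp)
    exact (quadraticChar_one_iff_isSquare h0).2 (hcon a ha h)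
  have hBB : B ^ 2 ≤ Q * B ^ 2 := le_mul_of_one_le_left (by positivity) hQ1
  have main : ∀ b : Ideal (𝓞 L), b ∣ span {l} →
      ∃ (A : Ideal (𝓞 L)) (g : 𝓞 L), g ≠ 0 ∧ (absNorm A : ℝ) ≤ B ∧ span {g} = b * A ∧ χ (φ g) = 1 := by
    intro b
    induction b using UniqueFactorizationMonoid.induction_on_prime with
    | h₁ => intro h; exact absurd (span_singleton_eq_bot.1 (zero_dvd_iff.1 h)) hl0
    | h₂ b hb =>
      intro _
      refine ⟨⊤, 1, one_ne_zero, by simpa using hB1, ?_, by simp⟩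
      rw [isUnit_iff.1 hb]; simp
    | h₃ b q hb hq ih =>
      intro h
      obtain ⟨A1, g1, hg1, hA1, e1, c1⟩ := ih (dvd_of_mul_left_dvd h)
      have hA10 : A1 ≠ ⊥ := by
        rintro rfl; exact hg1 (span_singleton_eq_bot.1 (by rw [e1, mul_bot]))
      obtain ⟨A2, g2, hg2, hA2, e2⟩ := hB (q * b) (mul_ne_zero hq.ne_zero hb)
      obtain ⟨A3, g3, hg3, hA3, e3⟩ := hB A1 hA10
      refine ⟨A2, g2, hg2, hA2, e2, ?_⟩
      have e4 : (span {g2 * g3} : Ideal (𝓞 L)) = span {g1} * (q * A2 * A3) := by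
        rw [← span_singleton_mul_span_singleton g2 g3, e1, e2, e3]; ring
      obtain ⟨u, hu⟩ : g1 ∣ g2 * g3 := by
        rw [← span_singleton_le_span_singleton, e4]; exact Ideal.mul_le_left
      have hu0 : u ≠ 0 := by rintro rfl; exact mul_ne_zero hg2 hg3 (by simpa using hu)
      have e5 : span {u} = q * A2 * A3 := by
        have : span {g1} * span {u} = span {g1} * (q * A2 * A3) := by
          rw [span_singleton_mul_span_singleton, ← hu, e4]
        exact mul_left_cancel₀ (by simpa using hg1) this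
      have hqQ : (absNorm q : ℝ) ≤ Q :=
        hQ q (isPrime_of_prime hq) ((span_singleton_le_iff_mem q).1 (le_of_dvd (dvd_of_mul_right_dvd h)))
      have cu : χ (φ u) = 1 := key u hu0 (by
        rw [e5, map_mul, map_mul]; push_cast
        calc (absNorm q : ℝ) * absNorm A2 * absNorm A3 ≤ Q * B * B := by gcongr
          _ = Q * B ^ 2 := by ring)
      have c3 : χ (φ g3) = 1 := key g3 hg3 (by
        rw [e3, map_mul]; push_cast
        calc (absNorm A1 : ℝ) * absNorm A3 ≤ B * B := by gcongr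
          _ = B ^ 2 := by ring
          _ ≤ _ := hBB)
      have := congrArg (fun x => χ (φ x)) hu
      simpa only [map_mul, c1, cu, c3, mul_one] using this
  obtain ⟨A, g, hg, hA, e, c⟩ := main _ dvd_rfl
  obtain ⟨u, hu⟩ : l ∣ g := by
    rw [← span_singleton_le_span_singleton, e]; exact Ideal.mul_le_left
  have hu0 : u ≠ 0 := by rintro rfl; exact hg (by simpa using hu)
  have e5 : span {u} = A := by
    have : span {l} * span {u} = span {l} * A := by rw [span_singleton_mul_span_singleton, ← hu, e]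
    exact mul_left_cancel₀ (by simpa using hl0) this
  have cu : χ (φ u) = 1 := key u hu0 (by
    rw [e5]
    calc (absNorm A : ℝ) ≤ B := hA
      _ ≤ B ^ 2 := by nlinarith
      _ ≤ _ := hBB)
  have h2 := congrArg (fun x => χ (φ x)) hu
  simp only [map_mul, c, cu, mul_one] at h2
  have h3 := (quadraticChar_neg_one_iff_not_isSquare).2 hl
  rw [← hχ, ← h2] at h3
  exact absurd h3 (by decide)

lemma small_sqrt [IsTotallyReal L] : Small L √|(discr L : ℝ)| := by
  intro I hI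
  let J : (Ideal (𝓞 L))⁰ := ⟨I, mem_nonZeroDivisors_of_ne_zero hI⟩
  obtain ⟨A, hA, hn⟩ := exists_ideal_in_class_of_norm_le (ClassGroup.mk0 J)⁻¹
  obtain ⟨g, hg, e⟩ := (ClassGroup.mk0_eq_mk0_inv_iff).1
    (show ClassGroup.mk0 J = (ClassGroup.mk0 A)⁻¹ by rw [hA, inv_inv])
  refine ⟨A, g, hg, hn.trans ?_, e.symm⟩
  rw [IsTotallyReal.nrComplexPlaces_eq_zero, pow_zero, one_mul]
  refine mul_le_of_le_one_left (Real.sqrt_nonneg _) ?_
  rw [div_le_one (by have := finrank_pos (R := ℚ) (M := L); positivity)]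
  exact_mod_cast Nat.factorial_le_pow _

/-- If some `l` is a non-residue and all primes dividing `l` have norm at most `Q`, there is a non-residue of norm at
most `Q |disc L|`. -/
theorem nonres [IsTotallyReal L] {p : ℕ} [Fact p.Prime] (φ : 𝓞 L →+* ZMod p) (l : 𝓞 L) (hl : ¬IsSquare (φ l))
    (Q : ℝ) (hQ1 : 1 ≤ Q) (hQ : ∀ P : Ideal (𝓞 L), P.IsPrime → l ∈ P → (absNorm P : ℝ) ≤ Q)
    (hp : Q * |(discr L : ℝ)| < p) :
    ∃ a : 𝓞 L, a ≠ 0 ∧ |(Algebra.norm ℤ a : ℝ)| ≤ Q * |(discr L : ℝ)| ∧ ¬IsSquare (φ a) := by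
  have e : √|(discr L : ℝ)| ^ 2 = |(discr L : ℝ)| := Real.sq_sqrt (abs_nonneg _)
  obtain ⟨a, ha, hn, hs⟩ := nonres_of_small φ l hl Q _ hQ1 hQ small_sqrt (by rwa [e])
  refine ⟨a, ha, ?_, hs⟩
  rw [e, absNorm_span_singleton, Nat.cast_natAbs, Int.cast_abs] at hn
  exact hn

end Pool.Agent.Tower36
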