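import Pool.Agent.Lib.Tower66.Step

/-! The field `L (√a)` over a totally real field `L`: involution, discriminant, split real places. -/

namespace Pool.Agent.Tower36

open Finset Module NumberField

variable {L : Type} [Field L] [NumberField L]

open Classical in
/-- The embeddings at which `a` is positive. -/
noncomputable def Pos (a : L) : Finset (L →+* ℂ) := univ.filter fun φ => 0 < (φ a).re

omit [NumberField L] in
lemma conj_emb [IsTotallyReal L] (φ : L →+* ℂ) (x : L) : (starRingEnd ℂ) (φ x) = φ x :=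
  RingHom.congr_fun (ComplexEmbedding.isReal_iff.1 (IsTotallyReal.complexEmbedding_isReal φ)) x

lemma card_pos_add [IsTotallyReal L] {a : L} (ha : a ≠ 0) : (Pos a).card + (Pos (-a)).card = finrank ℚ L := by
  classical
  rw [← Embeddings.card L ℂ, ← card_univ,
    ← card_filter_add_card_filter_not (s := univ) (fun φ : L →+* ℂ => 0 < (φ a).re)]
  unfold Pos
  congr 2
  refine filter_congr fun φ _ => ?_
  have h1 : (φ a).re ≠ 0 := by
    intro h
    exact (map_ne_zero φ).2 ha (Complex.ext h (Complex.conj_eq_iff_im.1 (conj_emb φ a)))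
  rw [map_neg, Complex.neg_re, not_lt, neg_pos]
  exact ⟨le_of_lt, fun h => lt_of_le_of_ne h h1⟩

lemma card_pos_neg (s : L →+* L) (hs : ∀ x, s (s x) = x) {a : L} (h : s a = -a) :
    (Pos (-a)).card = (Pos a).card := by
  classical
  have e : s.comp s = RingHom.id L := RingHom.ext hs
  refine card_bij' (fun φ _ => φ.comp s) (fun φ _ => φ.comp s) ?_ ?_ ?_ ?_
  · intro φ hφ
    simpa [Pos, h] using hφ
  · intro φ hφ
    simpa [Pos, h] using hφ
  · intro φ _; rw [RingHom.comp_assoc, e, RingHom.comp_id]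
  · intro φ _; rw [RingHom.comp_assoc, e, RingHom.comp_id]

section
variable {M : Type} [Field M] [NumberField M] [Algebra L M]

lemma discr_le (a : 𝓞 L) (ha : a ≠ 0) (β : M) (hβ : β ^ 2 = algebraMap L M a) (h2 : finrank L M = 2)
    (hrep : ∀ z : M, ∃ u v : L, z = algebraMap L M u + algebraMap L M v * β) :
    (discr M).natAbs ≤ (discr L).natAbs ^ 2 * (4 ^ finrank ℚ L * (Algebra.norm ℤ a).natAbs) := by
  obtain ⟨x, hx, hm⟩ := Tower66.exists_gen (a : L) β hβ hrep 2 two_ne_zero 0 a (by simp; ring)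
  let _ : Algebra (FractionRing (𝓞 L)) (FractionRing (𝓞 M)) := FractionRing.liftAlgebra _ _
  rw [natAbs_discr_eq_absNorm_differentIdeal_mul_natAbs_discr_pow L (𝓞 L) M (𝓞 M), h2, mul_comm]
  refine Nat.mul_le_mul_left _ ?_
  simp only [map_zero, zero_mul, zero_add, sub_zero] at hx hm
  have h3 : Ideal.absNorm (differentIdeal (𝓞 L) (𝓞 M)) ∣ Ideal.absNorm (Ideal.span {2 * x}) :=
    Ideal.absNorm_dvd_absNorm_of_le ((Ideal.span_singleton_le_iff_mem _).2 (Ideal.mul_le_right hm))
  have h4 : Ideal.absNorm (Ideal.span {2 * x}) ^ 2 = (4 ^ finrank ℚ L * (Algebra.norm ℤ a).natAbs) ^ 2 := by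
    have e1 : (2 * x) ^ 2 = algebraMap (𝓞 L) (𝓞 M) (4 * a) := by
      rw [mul_pow, hx, map_mul, map_ofNat]; norm_num
    rw [← map_pow, Ideal.span_singleton_pow, e1, ← Set.image_singleton, ← Ideal.map_span,
      Ideal.absNorm_algebraMap, ← IsFractionRing.finrank_eq (𝓞 L) L (𝓞 M) M, h2, Ideal.absNorm_span_singleton,
      map_mul, Int.natAbs_mul]
    congr 2
    rw [show (4 : 𝓞 L) = algebraMap ℤ (𝓞 L) 4 by simp, Algebra.norm_algebraMap, RingOfIntegers.rank]
    simp [Int.natAbs_pow]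
  have h5 := Nat.pow_left_injective two_ne_zero h4
  have h6 : 0 < 4 ^ finrank ℚ L * (Algebra.norm ℤ a).natAbs :=
    Nat.mul_pos (by positivity) (Int.natAbs_pos.2 (Algebra.norm_ne_zero_iff.2 ha))
  rw [h5] at h3
  exact Nat.le_of_dvd h6 h3

lemma exists_places [IsTotallyReal L] (a : L) (ha : a ≠ 0) (β : M) (hβ : β ^ 2 = algebraMap L M a)
    (hrep : ∀ z : M, ∃ u v : L, z = algebraMap L M u + algebraMap L M v * β)
    (hext : ∀ (φ : L →+* ℂ) (r : ℂ), r ^ 2 = φ a → ∃ ψ : M →+* ℂ, (∀ x, ψ (algebraMap L M x) = φ x) ∧ ψ β = r)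
    (s : M →+* M) (hs1 : ∀ x, s (algebraMap L M x) = algebraMap L M x) (hs2 : s β = -β) :
    ∃ W : Finset (InfinitePlace M), (Pos a).card ≤ W.card ∧ (∀ w ∈ W, w.IsReal ∧ w.comap s ∉ W) ∧
      ∀ w, w.comap s = w ∨ w ∈ W ∨ w.comap s ∈ W := by
  classical
  have hc : ∀ (e : M →+* ℂ) (x : L), (starRingEnd ℂ) (e (algebraMap L M x)) = e (algebraMap L M x) :=
    fun e x => conj_emb (e.comp (algebraMap L M)) x
  have hreal : ∀ e : M →+* ℂ, (starRingEnd ℂ) (e β) = e β → ComplexEmbedding.IsReal e := by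
    intro e he
    rw [ComplexEmbedding.isReal_iff]
    ext z
    obtain ⟨u, v, rfl⟩ := hrep z
    simp only [ComplexEmbedding.conjugate_coe_eq, map_add, map_mul, hc, he]
  have hcm : ∀ w : InfinitePlace M, w.comap s = InfinitePlace.mk (w.embedding.comp s) := fun w => by
    rw [← InfinitePlace.comap_mk, InfinitePlace.mk_embedding]
  have hemb : ∀ w : InfinitePlace M, w.IsReal → (w.comap s).IsReal ∧ (w.comap s).embedding β = -w.embedding β := by
    intro w hw
    have h1 := (InfinitePlace.isReal_iff.1 hw).comp s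
    rw [hcm w, InfinitePlace.isReal_mk_iff, InfinitePlace.embedding_mk_eq_of_isReal h1]
    exact ⟨h1, by simp [hs2]⟩
  refine ⟨univ.filter fun w => w.IsReal ∧ 0 < (w.embedding β).re, ?_, ?_, ?_⟩
  · have h1 : ∀ φ : L →+* ℂ, ∃ ψ : M →+* ℂ, φ ∈ Pos a →
        (∀ x, ψ (algebraMap L M x) = φ x) ∧ ComplexEmbedding.IsReal ψ ∧ 0 < (ψ β).re := by
      intro φ
      by_cases h : φ ∈ Pos a
      · have h0 : 0 < (φ a).re := by simpa [Pos] using h
        obtain ⟨ψ, h1, h2⟩ := hext φ (√(φ a).re : ℝ) (by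
          rw [← Complex.ofReal_pow, Real.sq_sqrt h0.le]
          exact Complex.conj_eq_iff_re.1 (conj_emb φ a))
        refine ⟨ψ, fun _ => ⟨h1, hreal ψ (by rw [h2, Complex.conj_ofReal]), ?_⟩⟩
        rw [h2, Complex.ofReal_re]
        exact Real.sqrt_pos.2 h0
      · exact ⟨Classical.arbitrary _, fun h' => absurd h' h⟩
    choose ψ hψ using h1
    refine card_le_card_of_injOn (fun φ => InfinitePlace.mk (ψ φ)) (fun φ hφ => ?_) fun φ hφ φ' hφ' e => ?_
    · have h := hψ φ hφ
      simp only [coe_filter, mem_univ, true_and, Set.mem_ofPred_eq, InfinitePlace.isReal_mk_iff,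
        InfinitePlace.embedding_mk_eq_of_isReal h.2.1]
      exact h.2
    · have h1 := congrArg InfinitePlace.embedding e
      simp only [InfinitePlace.embedding_mk_eq_of_isReal (hψ φ hφ).2.1,
        InfinitePlace.embedding_mk_eq_of_isReal (hψ φ' hφ').2.1] at h1
      ext x
      rw [← (hψ φ hφ).1, ← (hψ φ' hφ').1, h1]
  · intro w hw
    obtain ⟨h1, h2⟩ := (mem_filter.1 hw).2
    refine ⟨h1, fun h => ?_⟩
    have h3 := (mem_filter.1 h).2.2
    rw [(hemb w h1).2, Complex.neg_re] at h3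
    linarith
  · intro w
    have h0 : w.embedding β ≠ 0 := by
      rw [map_ne_zero]
      rintro rfl
      exact (map_ne_zero (algebraMap L M)).2 ha (by rw [← hβ]; simp)
    have h1 : ((starRingEnd ℂ) (w.embedding β)) ^ 2 = w.embedding β ^ 2 := by
      rw [← map_pow, ← map_pow, hβ, hc]
    rcases sq_eq_sq_iff_eq_or_eq_neg.1 h1 with h | h
    · right
      have hw : w.IsReal := InfinitePlace.isReal_iff.2 (hreal _ h)
      have h2 : (w.embedding β).re ≠ 0 := fun h' => h0 (Complex.ext h' (Complex.conj_eq_iff_im.1 h))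
      rcases lt_or_gt_of_ne h2 with h3 | h3
      · right
        refine mem_filter.2 ⟨mem_univ _, (hemb w hw).1, ?_⟩
        rw [(hemb w hw).2, Complex.neg_re]
        linarith
      · exact Or.inl (mem_filter.2 ⟨mem_univ _, hw, h3⟩)
    · left
      rw [hcm w]
      conv_rhs => rw [← InfinitePlace.mk_embedding w, ← InfinitePlace.mk_conjugate_eq]
      congr 1
      ext z
      obtain ⟨u, v, rfl⟩ := hrep z
      simp only [RingHom.comp_apply, ComplexEmbedding.conjugate_coe_eq, map_add, map_mul, hc, h, hs1, hs2, map_neg]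

end

/-- The package for `M = L (√a)`. -/
theorem exists_quadM [IsTotallyReal L] (a : 𝓞 L) (hns : ¬IsSquare (a : L)) :
    ∃ (M : Type) (_ : Field M) (_ : NumberField M) (_ : Algebra L M) (β : M) (s : M →+* M)
      (W : Finset (InfinitePlace M)), β ^ 2 = algebraMap L M a ∧ finrank ℚ M = 2 * finrank ℚ L ∧
      (∀ z : M, ∃ u v : L, z = algebraMap L M u + algebraMap L M v * β ∧
        s z = algebraMap L M u - algebraMap L M v * β) ∧ s β = -β ∧ (∀ x, s (s x) = x) ∧
      (∀ (F : Type) [Field F] (φ : L →+* F) (r : F), r ^ 2 = φ a →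
        ∃ ψ : M →+* F, (∀ x, ψ (algebraMap L M x) = φ x) ∧ ψ β = r) ∧
      (discr M).natAbs ≤ (discr L).natAbs ^ 2 * (4 ^ finrank ℚ L * (Algebra.norm ℤ a).natAbs) ∧
      (Pos (a : L)).card ≤ W.card ∧ (∀ w ∈ W, w.IsReal ∧ w.comap s ∉ W) ∧
      ∀ w, w.comap s = w ∨ w ∈ W ∨ w.comap s ∈ W := by
  obtain ⟨M, _, _, _, β, hβ, h2, hrep, hext⟩ := Tower66.exists_sqrt_field L (a : L) hns
  have ha : (a : L) ≠ 0 := fun h => hns (h ▸ IsSquare.zero)
  obtain ⟨s, hs1, hs2⟩ := hext M (algebraMap L M) (-β) (by rw [neg_sq, hβ])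
  obtain ⟨W, hW⟩ := exists_places (a : L) ha β hβ hrep (hext ℂ) s hs1 hs2
  refine ⟨M, inferInstance, inferInstance, inferInstance, β, s, W, hβ, ?_, fun z => ?_, hs2, fun z => ?_, hext,
    discr_le a (RingOfIntegers.coe_ne_zero_iff.1 ha) β hβ h2 hrep, hW⟩
  · rw [← Module.finrank_mul_finrank ℚ L M, h2, mul_comm]
  · obtain ⟨u, v, rfl⟩ := hrep z
    exact ⟨u, v, rfl, by simp only [map_add, map_mul, hs1, hs2]; ring⟩
  · obtain ⟨u, v, rfl⟩ := hrep z
    simp only [map_add, map_mul, hs1, hs2, map_neg, neg_neg]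

end Pool.Agent.Tower36
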