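import Pool.Agent.Lib.Tower.Blue2
import Pool.Agent.Lib.Tower36.QuadM
import Pool.Agent.Lib.Tower36.NonRes
import Pool.Agent.Lib.Tower36.FamU

/-! The auxiliary field: a quadratic extension `M` of a layer of the tower whose involution acts at `p` like
`ρ ↦ -ρ`. -/

namespace Pool.Agent.Tower36

open Finset Module NumberField Polynomial Pool.Agent.Lib.Tower

section padic
variable {p : ℕ} [Fact p.Prime]

lemma norm_lt_one_iff (z : ℤ_[p]) : ‖z‖ < 1 ↔ PadicInt.toZMod z = 0 := by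
  rw [← RingHom.mem_ker, PadicInt.ker_toZMod, IsLocalRing.mem_maximalIdeal, PadicInt.mem_nonunits]

lemma isSquare_of_toZMod (hp : p ≠ 2) (z : ℤ_[p]) (h0 : PadicInt.toZMod z ≠ 0)
    (h : IsSquare (PadicInt.toZMod z)) : IsSquare z := by
  obtain ⟨b, hb⟩ := h
  have hb0 : b ≠ 0 := by rintro rfl; exact h0 (by simpa using hb)
  have h2 : (2 : ZMod p) ≠ 0 := by
    intro h
    exact hp ((Nat.prime_dvd_prime_iff_eq Fact.out Nat.prime_two).1 ((ZMod.natCast_eq_zero_iff 2 p).1 h))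
  let a : ℤ_[p] := (b.val : ℕ)
  have ha : PadicInt.toZMod a = b := by simp [a]
  have e1 : ‖(2 * a : ℤ_[p])‖ = 1 := by
    refine le_antisymm (PadicInt.norm_le_one _) (not_lt.1 fun h => ?_)
    rw [norm_lt_one_iff, map_mul, ha, map_ofNat] at h
    exact mul_ne_zero h2 hb0 h
  obtain ⟨y, hy, -⟩ := hensels_lemma (F := (X ^ 2 - C z : ℤ_[p][X])) (a := a) (by
    have : (aeval a) (derivative (X ^ 2 - C z : ℤ_[p][X])) = 2 * a := by simp; norm_num
    rw [this, e1, one_pow, norm_lt_one_iff]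
    simp [ha, hb, sq])
  exact ⟨y, by simpa [sub_eq_zero, sq, eq_comm] using hy⟩

variable {L : Type} [Field L] [NumberField L]

omit [NumberField L] in
lemma exists_intHom (ψ : L →+* ℚ_[p]) : ∃ φ : 𝓞 L →+* ℤ_[p], ∀ x, (φ x : ℚ_[p]) = ψ x := by
  have h : ∀ x : 𝓞 L, ψ x ∈ PadicInt.subring p := by
    intro x
    have h1 : IsIntegral ℤ (ψ x) := x.isIntegral_coe.map ψ.toIntAlgHom
    obtain ⟨z, hz⟩ := (IsIntegrallyClosed.isIntegral_iff (R := ℤ_[p]) (K := ℚ_[p])).1 h1.tower_top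
    rw [← hz]
    exact z.2
  exact ⟨(ψ.comp (algebraMap (𝓞 L) L)).codRestrict (PadicInt.subring p) h, fun _ => rfl⟩

omit [NumberField L] in
lemma not_isSquare_of_emb (ψ : L →+* ℚ_[p]) {c : ℕ} (hc : padicValNat p c = 1) : ¬IsSquare (c : L) := by
  rintro ⟨x, hx⟩
  have h1 := congrArg ψ hx
  rw [map_natCast, map_mul] at h1
  have hc0 : c ≠ 0 := by rintro rfl; simp at hc
  have h0 : ψ x ≠ 0 := by
    intro h; rw [h, mul_zero] at h1; exact hc0 (by exact_mod_cast h1)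
  have h2 := congrArg Padic.valuation h1
  rw [Padic.valuation_mul h0 h0, Padic.valuation_natCast, hc] at h2
  omega

omit [NumberField L] in
lemma not_isSquare_coe {R : Type} [CommRing R] (φ : 𝓞 L →+* R) {a : 𝓞 L} (h : ¬IsSquare (φ a)) :
    ¬IsSquare (a : L) := by
  rintro ⟨x, hx⟩
  have h1 : IsIntegral ℤ x := IsIntegral.of_pow two_pos (by rw [sq, ← hx]; exact a.isIntegral_coe)
  exact h ⟨φ ⟨x, h1⟩, by rw [← map_mul]; congr 1; exact Subtype.ext hx⟩

end padic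

lemma card_pos_sqrt {L : Type} [Field L] [NumberField L] [IsTotallyReal L] {m : ℕ} {μ : L} (h : μ ^ 2 = m)
    (hm : ¬IsSquare m) : (Pos (-μ)).card = (Pos μ).card := by
  classical
  have hirr : Irrational √m := irrational_sqrt_natCast_iff.2 hm
  have h1 : ∀ φ : L →+* ℂ, (φ μ).re ^ 2 = √m ^ 2 := by
    intro φ
    have e := Complex.conj_eq_iff_re.1 (conj_emb φ μ)
    have e2 : φ μ ^ 2 = m := by rw [← map_pow, h, map_natCast]
    rw [← e] at e2
    rw [Real.sq_sqrt (Nat.cast_nonneg m)]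
    exact_mod_cast e2
  have hs : 0 < √m := lt_of_le_of_ne (Real.sqrt_nonneg _) hirr.ne_zero.symm
  have h2 : ∀ φ : L →+* ℂ, (φ μ).re =
      ((if 0 < (φ μ).re then 1 else 0) - if 0 < (φ (-μ)).re then 1 else 0) * √m := by
    intro φ
    rw [map_neg, Complex.neg_re]
    rcases sq_eq_sq_iff_eq_or_eq_neg.1 (h1 φ) with e | e
    · rw [e, if_pos hs, if_neg (by linarith)]; ring
    · rw [e, if_neg (by linarith), if_pos (by linarith)]; ring
  have h3 : ((Algebra.trace ℚ L μ : ℚ) : ℝ) = (((Pos μ).card : ℤ) - (Pos (-μ)).card : ℤ) * √m := by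
    have e := congrArg Complex.re (trace_eq_sum_embeddings ℂ (K := ℚ) (x := μ))
    rw [← (RingHom.equivRatAlgHom L ℂ).sum_comp, Complex.re_sum] at e
    have e' : ((Algebra.trace ℚ L μ : ℚ) : ℝ) = ∑ φ : L →+* ℂ, (φ μ).re := by simpa using e
    rw [e', sum_congr rfl fun φ _ => h2 φ, ← sum_mul, sum_sub_distrib, sum_boole, sum_boole]
    push_cast
    rfl
  by_contra hne
  have h4 : ((Pos μ).card : ℤ) - (Pos (-μ)).card ≠ 0 := by omega
  exact (hirr.intCast_mul h4).ne_rat _ h3.symm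

lemma exists_prime_nonres {p : ℕ} [Fact p.Prime] {n : ℕ} (hn : n ≠ 0) (h : ¬IsSquare (n : ZMod p)) :
    ∃ l : ℕ, l.Prime ∧ l ∣ n ∧ ¬IsSquare (l : ZMod p) := by
  induction n using induction_on_primes with
  | zero => exact absurd rfl hn
  | one => exact absurd (by simp) h
  | prime_mul q a hq ih =>
    by_cases h1 : IsSquare (q : ZMod p)
    · obtain ⟨l, hl, hd, hs⟩ := ih (right_ne_zero_of_mul hn) fun h2 => h (by push_cast; exact h1.mul h2)
      exact ⟨l, hl, hd.mul_left _, hs⟩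
    · exact ⟨q, hq, dvd_mul_right _ _, h1⟩

lemma isSquare_mul_of_not {p : ℕ} [Fact p.Prime] {x y : ZMod p} (hx : ¬IsSquare x) (hy : ¬IsSquare y) :
    IsSquare (x * y) := by
  have hx0 : x ≠ 0 := by rintro rfl; exact hx IsSquare.zero
  have hy0 : y ≠ 0 := by rintro rfl; exact hy IsSquare.zero
  rw [← quadraticChar_one_iff_isSquare (mul_ne_zero hx0 hy0), map_mul,
    quadraticChar_neg_one_iff_not_isSquare.2 hx, quadraticChar_neg_one_iff_not_isSquare.2 hy]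
  norm_num

lemma norm_natCast_le {L : Type} [Field L] [NumberField L] (c : ℕ) :
    (Algebra.norm ℤ (c : 𝓞 L)).natAbs = c ^ finrank ℚ L := by
  rw [show (c : 𝓞 L) = algebraMap ℤ (𝓞 L) c by simp, Algebra.norm_algebraMap, RingOfIntegers.rank]
  simp [Int.natAbs_pow]

/-- The choice of the radicand. -/
lemma exists_radicand {p : ℕ} [Fact p.Prime] {L : Type} [Field L] [NumberField L] [IsTotallyReal L]
    (φ : 𝓞 L →+* ZMod p) (ψ₂ : L →+* ℚ_[2]) [Fact (Nat.Prime 3)] (ψ₃ : L →+* ℚ_[3]) (C : ℕ) (hC : 6 ≤ C)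
    (hD : (discr L).natAbs ≤ C ^ finrank ℚ L) {m : ℕ} {μ : L} (hμ : μ ^ 2 = m) (hm : ¬IsSquare m) (hmC : m ≤ C)
    (d : ℤ) (hp : d.natAbs * C ^ finrank ℚ L < p) (l : ℕ) (hl : l ≤ d.natAbs) (hl1 : 1 ≤ l)
    (hls : ¬IsSquare (d.natAbs : ZMod p) → ¬IsSquare (l : ZMod p))
    (hP : ∀ P : Ideal (𝓞 L), P.IsPrime → (l : 𝓞 L) ∈ P → Ideal.absNorm P = l) :
    ∃ a : 𝓞 L, ¬IsSquare (a : L) ∧ φ a ≠ 0 ∧ IsSquare (φ a * d) ∧ finrank ℚ L ≤ 2 * (Pos (a : L)).card ∧
      (Algebra.norm ℤ a).natAbs ≤ d.natAbs * C ^ finrank ℚ L := by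
  classical
  have hd1 : 1 ≤ d.natAbs := hl1.trans hl
  have hn : 0 < finrank ℚ L := finrank_pos
  have hCp : C < p := lt_of_le_of_lt ((Nat.le_self_pow hn.ne' C).trans (Nat.le_mul_of_pos_left _ hd1)) hp
  have hne : ∀ c : ℕ, c ≠ 0 → c ≤ C → (c : ZMod p) ≠ 0 := fun c h0 h e =>
    absurd (Nat.le_of_dvd (Nat.pos_of_ne_zero h0) ((ZMod.natCast_eq_zero_iff c p).1 e)) (by omega)
  by_cases hsq : IsSquare (d : ZMod p)
  · obtain ⟨c, hc0, hc6, hcs, hcn⟩ : ∃ c : ℕ, c ≠ 0 ∧ c ≤ 6 ∧ IsSquare (c : ZMod p) ∧ ¬IsSquare (c : L) := by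
      by_cases h2 : IsSquare ((2 : ℕ) : ZMod p)
      · exact ⟨2, by norm_num, by norm_num, h2, not_isSquare_of_emb ψ₂ padicValNat_self⟩
      by_cases h3 : IsSquare ((3 : ℕ) : ZMod p)
      · exact ⟨3, by norm_num, by norm_num, h3, not_isSquare_of_emb ψ₃ padicValNat_self⟩
      refine ⟨2 * 3, by norm_num, by norm_num, by rw [Nat.cast_mul]; exact isSquare_mul_of_not h2 h3,
        not_isSquare_of_emb ψ₂ ?_⟩
      rw [padicValNat.mul (by norm_num) (by norm_num), padicValNat_self,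
        padicValNat.eq_zero_of_not_dvd (by norm_num)]
    refine ⟨c, by simpa using hcn, by simpa using hne c hc0 (hc6.trans hC), by simpa using hcs.mul hsq, ?_, ?_⟩
    · have : Pos ((c : 𝓞 L) : L) = univ := by
        refine filter_true_of_mem fun φ _ => ?_
        simpa using Nat.pos_of_ne_zero hc0
      rw [this, card_univ, Embeddings.card]
      omega
    · rw [norm_natCast_le]
      exact (Nat.pow_le_pow_left (hc6.trans hC) _).trans (Nat.le_mul_of_pos_left _ hd1)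
  suffices h : ∃ a : 𝓞 L, ¬IsSquare (φ a) ∧ finrank ℚ L ≤ 2 * (Pos (a : L)).card ∧
      (Algebra.norm ℤ a).natAbs ≤ d.natAbs * C ^ finrank ℚ L by
    obtain ⟨a, h1, h2⟩ := h
    exact ⟨a, not_isSquare_coe φ h1, fun e => h1 (e ▸ IsSquare.zero), isSquare_mul_of_not h1 hsq, h2⟩
  have hneg : ∀ a : 𝓞 L, (Algebra.norm ℤ (-a)).natAbs = (Algebra.norm ℤ a).natAbs := fun a => by
    rw [← Ideal.absNorm_span_singleton, ← Ideal.absNorm_span_singleton, Ideal.span_singleton_neg]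
  by_cases h1 : IsSquare (-1 : ZMod p)
  · have hsn : ∀ x : ZMod p, IsSquare (-x) → IsSquare x := fun x hx => by simpa using h1.mul hx
    have h2 : ¬IsSquare (d.natAbs : ZMod p) := by
      intro h
      rcases Int.natAbs_eq d with e | e
      · exact hsq (by rw [e]; simpa using h)
      · exact hsq (hsn _ (by rw [e]; simpa using h))
    have hDr : |(discr L : ℝ)| = (discr L).natAbs := by rw [Nat.cast_natAbs, Int.cast_abs]
    have hb : (l : ℝ) * |(discr L : ℝ)| ≤ (d.natAbs * C ^ finrank ℚ L : ℕ) := by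
      rw [hDr]; exact_mod_cast Nat.mul_le_mul hl hD
    obtain ⟨a, ha, hN, hs⟩ := nonres φ (l : 𝓞 L) (by simpa using hls h2) l (by exact_mod_cast hl1)
      (fun P hP' h => by rw [hP P hP' h]) (hb.trans_lt (by exact_mod_cast hp))
    have hN' : (Algebra.norm ℤ a).natAbs ≤ d.natAbs * C ^ finrank ℚ L := by
      have := hN.trans hb
      rw [← Int.cast_abs, ← Nat.cast_natAbs] at this
      exact_mod_cast this
    have hc := card_pos_add (a := (a : L)) (RingOfIntegers.coe_ne_zero_iff.2 ha)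
    by_cases h3 : finrank ℚ L ≤ 2 * (Pos (a : L)).card
    · exact ⟨a, hs, h3, hN'⟩
    · refine ⟨-a, fun h => hs (hsn _ (by simpa using h)), ?_, by rwa [hneg]⟩
      have : ((-a : 𝓞 L) : L) = -(a : L) := by simp
      rw [this]
      omega
  · have hi : IsIntegral ℤ μ := IsIntegral.of_pow two_pos (by rw [hμ]; exact isIntegral_natCast m)
    have hm0 : m ≠ 0 := by rintro rfl; exact hm IsSquare.zero
    let a : 𝓞 L := ⟨μ, hi⟩
    have ha2 : a ^ 2 = m := RingOfIntegers.coe_injective (by rw [map_pow, map_natCast]; exact hμ)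
    have ha0 : φ a ≠ 0 := by
      intro e
      have := congrArg φ ha2
      rw [map_pow, e, map_natCast] at this
      exact hne m hm0 hmC (by simpa using this.symm)
    have hμ0 : μ ≠ 0 := by rintro rfl; exact hm0 (by simpa using hμ.symm)
    have hc := card_pos_add hμ0
    have hc' := card_pos_sqrt hμ hm
    have hN : (Algebra.norm ℤ a).natAbs ≤ d.natAbs * C ^ finrank ℚ L := by
      have e := norm_natCast_le (L := L) m
      rw [← ha2, map_pow, Int.natAbs_pow] at e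
      calc _ ≤ (Algebra.norm ℤ a).natAbs ^ 2 := Nat.le_self_pow two_ne_zero _
        _ ≤ C ^ finrank ℚ L := e ▸ Nat.pow_le_pow_left hmC _
        _ ≤ _ := Nat.le_mul_of_pos_left _ hd1
    by_cases h3 : IsSquare (φ a)
    · refine ⟨-a, fun h => h1 ?_, ?_, by rwa [hneg]⟩
      · have := h.div h3
        rwa [map_neg, neg_div, div_self ha0] at this
      · have : ((-a : 𝓞 L) : L) = -μ := by simp [a]
        rw [this]
        omega
    · exact ⟨a, h3, by change _ ≤ 2 * (Pos μ).card; omega, hN⟩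

def AuxStmt : Prop :=
  ∃ C : ℕ, ∀ (p : ℕ) [Fact p.Prime] (k : ℕ) (d : ℤ), ¬(p : ℤ) ∣ d → d.natAbs * C ^ 2 ^ k < p →
    ∀ (r : ℚ_[p]) (ρ : ℂ_[p]), IsSquare (r * d) → r ≠ 0 → ρ ^ 2 = algebraMap ℚ_[p] ℂ_[p] r →
    ∃ (M : Type) (_ : Field M) (_ : NumberField M) (s : M →+* M) (f : M →+* ℂ_[p]) (W : Finset (InfinitePlace M)),
      finrank ℚ M = 2 ^ (k + 2) ∧ (discr M).natAbs ≤ d.natAbs * C ^ 2 ^ k ∧ (∀ x, s (s x) = x) ∧
      2 ^ k ≤ W.card ∧ (∀ w ∈ W, w.IsReal ∧ w.comap s ∉ W) ∧ (∀ w, w.comap s = w ∨ w ∈ W ∨ w.comap s ∈ W) ∧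
      ∀ x, ∃ u v : ℚ_[p], f x = algebraMap _ _ u + algebraMap _ _ v * ρ ∧
        f (s x) = algebraMap _ _ u - algebraMap _ _ v * ρ

theorem aux (hT : Tower2Stmt) : AuxStmt := by
  classical
  obtain ⟨C₀, hT⟩ := hT 4
  set C := C₀ + 6 with hC
  refine ⟨(4 * C ^ 3) ^ 2, fun p _ k d hd hp r ρ hr hr0 hρ => ?_⟩
  have : Fact (Nat.Prime 3) := ⟨Nat.prime_three⟩
  have hd0 : d.natAbs ≠ 0 := by
    rw [Int.natAbs_ne_zero]; rintro rfl; exact hd (dvd_zero _)
  have hdz : (d : ZMod p) ≠ 0 := fun h => hd ((ZMod.intCast_zmod_eq_zero_iff_dvd d p).1 h)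
  obtain ⟨l, hl, hl1, hls, hlp⟩ : ∃ l : ℕ, l ≤ d.natAbs ∧ 1 ≤ l ∧
      (¬IsSquare (d.natAbs : ZMod p) → ¬IsSquare (l : ZMod p)) ∧ (l.Prime ∨ l = 1) := by
    by_cases h : IsSquare (d.natAbs : ZMod p)
    · exact ⟨1, Nat.pos_of_ne_zero hd0, le_rfl, fun h' => absurd h h', Or.inr rfl⟩
    · obtain ⟨l, h1, h2, h3⟩ := exists_prime_nonres hd0 h
      exact ⟨l, Nat.le_of_dvd (Nat.pos_of_ne_zero hd0) h2, h1.pos, fun _ => h3, Or.inl h1⟩
  obtain ⟨L, _, _, hn, hD, _, -, ⟨m, μ, hμ, hm, hmC⟩, hQ⟩ := hT {2, 3, p, l} card_le_four k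
  obtain ⟨ψ₂⟩ := (hQ 2 (by simp)).2.1
  obtain ⟨ψ₃⟩ := (hQ 3 (by simp)).2.1
  obtain ⟨ψ⟩ := (hQ p (by simp)).2.1
  obtain ⟨φ, hφ⟩ := exists_intHom ψ
  have e1 : ((4 * C ^ 3) ^ 2) ^ 2 ^ k = (C ^ finrank ℚ L) ^ 2 * (4 ^ finrank ℚ L * C ^ finrank ℚ L) := by
    rw [← pow_mul, hn, ← pow_succ', mul_pow, ← pow_mul, ← pow_mul]; ring
  have hC1 : 1 ≤ C ^ finrank ℚ L := Nat.one_le_pow _ _ (by omega)
  have hD' : (discr L).natAbs ≤ C ^ finrank ℚ L := hD.trans (Nat.pow_le_pow_left (by omega) _)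
  have hp' : d.natAbs * C ^ finrank ℚ L < p := by
    refine lt_of_le_of_lt (Nat.mul_le_mul_left _ ?_) hp
    rw [e1, ← mul_assoc]
    exact Nat.le_mul_of_pos_left _ (by positivity)
  have hp2 : p ≠ 2 := by
    have h1 : C ≤ d.natAbs * C ^ finrank ℚ L :=
      (Nat.le_self_pow finrank_pos.ne' C).trans (Nat.le_mul_of_pos_left _ (Nat.pos_of_ne_zero hd0))
    omega
  obtain ⟨a, hns, ha0, hsq, hpos, hN⟩ := exists_radicand (PadicInt.toZMod.comp φ) ψ₂ ψ₃ C (by omega) hD' hμ hm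
    (by omega) d hp' l hl hl1 hls (by
      rcases hlp with h | rfl
      · have : Fact l.Prime := ⟨h⟩
        exact (hQ l (by simp)).2.2
      · intro P hP h
        exact absurd ((Ideal.eq_top_iff_one P).2 (by simpa using h)) hP.ne_top)
  obtain ⟨h, hh⟩ := isSquare_of_toZMod hp2 (φ a * d) (by simpa using ⟨ha0, hdz⟩) (by simpa using hsq)
  obtain ⟨g, hg⟩ := hr
  have hdq : (d : ℚ_[p]) ≠ 0 := by exact_mod_cast Int.natAbs_ne_zero.1 hd0
  have hg0 : g ≠ 0 := by rintro rfl; exact mul_ne_zero hr0 hdq (by simpa using hg)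
  have hh' : ψ a * d = (h : ℚ_[p]) * h := by
    have := congrArg (fun z : ℤ_[p] => (z : ℚ_[p])) hh
    simpa [hφ] using this
  have he : ψ a = r * (h / g) ^ 2 := by
    refine mul_right_cancel₀ hdq ?_
    rw [hh', mul_right_comm, hg]
    field_simp
  obtain ⟨M, _, _, _, β, s, W, hβ, hM, hrep, -, hss, hext, hdisc, hW, hW1, hW2⟩ := exists_quadM a hns
  obtain ⟨f, hf1, hf2⟩ := hext ℂ_[p] ((algebraMap ℚ_[p] ℂ_[p]).comp ψ) (algebraMap ℚ_[p] ℂ_[p] (h / g) * ρ) (by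
    rw [mul_pow, hρ, RingHom.comp_apply, he, map_mul, map_pow, mul_comm])
  refine ⟨M, inferInstance, inferInstance, s, f, W, by rw [hM, hn, ← pow_succ'], hdisc.trans ?_, hss, ?_, hW1, hW2,
    fun x => ?_⟩
  · rw [e1]
    calc (discr L).natAbs ^ 2 * (4 ^ finrank ℚ L * (Algebra.norm ℤ a).natAbs)
        ≤ (C ^ finrank ℚ L) ^ 2 * (4 ^ finrank ℚ L * (d.natAbs * C ^ finrank ℚ L)) := by gcongr
      _ = _ := by ring
  · rw [hn, pow_succ] at hpos
    omega
  · obtain ⟨u, v, h1, h2⟩ := hrep x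
    refine ⟨ψ u, ψ v * (h / g), ?_, ?_⟩
    · rw [h1, map_add, map_mul, hf1, hf1, hf2, map_mul, mul_assoc]; rfl
    · rw [h2, map_sub, map_mul, hf1, hf1, hf2, map_mul, mul_assoc]; rfl

end Pool.Agent.Tower36
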