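import Pool.Agent.Lib.Szpiro98.Blue4
import Pool.Agent.Lib.Tower36.AuxM

/-! Block AUX4: the auxiliary units. -/

namespace Pool.Agent.Tower36

open Finset Module NumberField NumberField.Units NumberField.Units.dirichletUnitTheorem Pool.Agent.Szpiro98

variable {M : Type} [Field M] [NumberField M]

omit [NumberField M] in
lemma exists_conj_unit (s : M →+* M) (u : (𝓞 M)ˣ) : ∃ v : (𝓞 M)ˣ, (v : M) = s u :=
  ⟨Units.map (RingOfIntegers.mapRingHom s).toMonoidHom u, rfl⟩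

omit [NumberField M] in
lemma exists_quot_unit (s : M →+* M) (u : (𝓞 M)ˣ) : ∃ y : (𝓞 M)ˣ, (y : M) = u / s u := by
  obtain ⟨v, hv⟩ := exists_conj_unit s u
  exact ⟨u * v⁻¹, by rw [← hv]; simp [div_eq_mul_inv]⟩

/-- Norm-one units have rank at most `W.card`. -/
lemma dep_of_norm_one (s : M →+* M) (W : Finset (InfinitePlace M))
    (hW : ∀ w ∈ W, w.comap s ∉ W) (hW2 : ∀ w, w.comap s = w ∨ w ∈ W ∨ w.comap s ∈ W)
    (y : Fin (W.card + 1) → (𝓞 M)ˣ) (hy : ∀ k, (y k : M) * s (y k) = 1) :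
    ∃ a : Fin (W.card + 1) → ℤ, a ≠ 0 ∧ ∏ k, y k ^ a k = 1 := by
  classical
  let v : Fin (W.card + 1) → logSpace M := fun k => logEmbedding M (Additive.ofMul (y k))
  let e : W → logSpace M := fun j w =>
    w.1.mult * ((if w.1 = j.1 then 1 else 0) - if w.1.comap s = j.1 then 1 else 0)
  have hv : ∀ k, v k ∈ Submodule.span ℝ (Set.range e) := by
    intro k
    have hl : ∀ w : InfinitePlace M, Real.log (w.comap s (y k)) = -Real.log (w (y k)) := by
      intro w
      have h1 : w (y k) * w (s (y k)) = 1 := by rw [← map_mul, hy k, map_one]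
      rw [InfinitePlace.comap_apply, eq_inv_of_mul_eq_one_right h1, Real.log_inv]
    refine (Submodule.mem_span_range_iff_exists_fun ℝ).2 ⟨fun j => Real.log (j.1 (y k)), funext fun w => ?_⟩
    have e1 : ∀ x : InfinitePlace M, ∑ j : W, Real.log (j.1 (y k)) * (if x = j.1 then 1 else 0) =
        if x ∈ W then Real.log (x (y k)) else 0 := by
      intro x
      rw [sum_coe_sort W fun j => Real.log (j (y k)) * (if x = j then 1 else 0)]
      simp only [mul_ite, mul_one, mul_zero, sum_ite_eq]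
    simp only [v, e, logEmbedding_component, Finset.sum_apply, Pi.smul_apply, smul_eq_mul]
    simp only [mul_left_comm _ (w.1.mult : ℝ), ← mul_sum, mul_sub, sum_sub_distrib, e1]
    rw [← mul_sub]
    congr 1
    by_cases h1 : w.1 ∈ W
    · rw [if_pos h1, if_neg (hW _ h1), sub_zero]
    · rcases hW2 w.1 with h | h | h
      · have h2 := hl w.1
        rw [h] at h2 ⊢
        rw [if_neg h1]
        linarith
      · exact absurd h h1
      · rw [if_neg h1, if_pos h, hl, zero_sub, neg_neg]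
  have hle : Submodule.span ℤ (Set.range v) ≤ unitLattice M := by
    rw [Submodule.span_le]
    rintro _ ⟨k, rfl⟩
    exact ⟨_, trivial, rfl⟩
  have hd : DiscreteTopology (Submodule.span ℤ (Set.range v)) :=
    DiscreteTopology.of_subset (instDiscrete_unitLattice M) hle
  have h1 : Set.finrank ℤ (Set.range v) ≤ W.card := by
    rw [← Real.finrank_eq_int_finrank_of_discrete hd]
    refine le_trans ?_ ((finrank_range_le_card (R := ℝ) e).trans (Fintype.card_coe W).le)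
    have : FiniteDimensional ℝ (Submodule.span ℝ (Set.range e)) := FiniteDimensional.span_of_finite ℝ (Set.finite_range e)
    exact Submodule.finrank_mono (Submodule.span_le.2 (by rintro _ ⟨k, rfl⟩; exact hv k))
  have h2 : ¬LinearIndependent ℤ v := fun h => by
    have := linearIndependent_iff_card_eq_finrank_span.1 h
    rw [Fintype.card_fin] at this
    omega
  obtain ⟨a, ha, k, hk⟩ := Fintype.not_linearIndependent_iff.1 h2
  have h3 : ∏ k, y k ^ a k ∈ torsion M := by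
    rw [← logEmbedding_eq_zero_iff, ← ha, ofMul_prod, map_sum]
    exact sum_congr rfl fun k _ => by rw [ofMul_zpow, map_zsmul]
  obtain ⟨n, hn, h4⟩ := isOfFinOrder_iff_pow_eq_one.1 ((CommGroup.mem_torsion _).1 h3)
  refine ⟨fun k => a k * n, fun h => hk ?_, ?_⟩
  · have := congrFun h k
    simpa [hn.ne'] using this
  · rw [← prod_pow] at h4
    exact (prod_congr rfl fun k _ => by rw [zpow_mul, zpow_natCast]).trans h4

lemma exists_lift {F : Type} [Field F] [CharZero F] [IsAlgClosed F] (ι : Qb →+* F) (f : M →+* F) :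
    ∃ j : M →+* Qb, ι.comp j = f := by
  classical
  refine ((Fintype.bijective_iff_injective_and_card fun j : M →+* Qb => ι.comp j).2 ⟨fun a b h => ?_, ?_⟩).2 f
  · exact RingHom.ext fun x => ι.injective (RingHom.congr_fun h x)
  · rw [Embeddings.card, Embeddings.card]

omit [NumberField M] in
lemma norm_unit {p : ℕ} [Fact p.Prime] (f : M →+* ℂ_[p]) (u : (𝓞 M)ˣ) : ‖f u‖ = 1 := by
  have h : ∀ u : (𝓞 M)ˣ, ‖f u‖ ≤ 1 := fun u => norm_le_of_ultra (map_isIntegral_int f (u : 𝓞 M).isIntegral_coe)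
  refine le_antisymm (h u) ?_
  have h1 : ‖f u‖ * ‖f (u⁻¹ : (𝓞 M)ˣ)‖ = 1 := by
    rw [← norm_mul, ← map_mul, ← Units.coe_mul, mul_inv_cancel, Units.coe_one, map_one, norm_one]
  nlinarith [h u⁻¹, norm_nonneg (f u)]

theorem aux4 (hT : Pool.Agent.Lib.Tower.Tower2Stmt) : V4.AuxStmt := by
  classical
  obtain ⟨C, hC⟩ := aux hT
  refine ⟨2 ^ 54 * (C + 1) ^ 3, one_le_mul_of_one_le_of_one_le (by norm_num)
    (one_le_pow₀ (by linarith [Nat.cast_nonneg (α := ℝ) C])), fun p _ ι k d ρ hd hρ hp => ?_⟩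
  have hd1 : (1 : ℝ) ≤ d.natAbs := by exact_mod_cast Int.natAbs_pos.2 hd
  have hd2 : (d : ℝ) ^ 2 = (d.natAbs : ℝ) ^ 2 := by rw [Nat.cast_natAbs, Int.cast_abs, sq_abs]
  set E : ℝ := (C + 1) ^ 2 ^ k with hE
  set T : ℝ := 2 ^ 2 ^ k with hT
  have hE1 : 1 ≤ E := one_le_pow₀ (by linarith [Nat.cast_nonneg (α := ℝ) C])
  have hT2 : 2 ≤ T := le_self_pow₀ one_le_two (by positivity)
  have hCE : (C : ℝ) ^ 2 ^ k ≤ E := pow_le_pow_left₀ (Nat.cast_nonneg C) (by linarith) _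
  have e0 : ((2 : ℝ) ^ 54 * (C + 1) ^ 3) ^ 2 ^ k = T ^ 54 * E ^ 3 := by
    rw [mul_pow, hT, hE, ← pow_mul, ← pow_mul, ← pow_mul, ← pow_mul, mul_comm 54, mul_comm 3]
  rw [e0, hd2] at hp
  rw [e0]
  have hT10 : 1 ≤ T ^ 10 := one_le_pow₀ (by linarith)
  have hbig : T ^ 10 * (d.natAbs * E) < p := by
    refine lt_of_le_of_lt ?_ hp
    calc T ^ 10 * (d.natAbs * E) ≤ T ^ 54 * ((d.natAbs : ℝ) ^ 2 * E ^ 3) := by
          gcongr
          · linarith
          · norm_num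
          · exact le_self_pow₀ hd1 two_ne_zero
          · exact le_self_pow₀ hE1 three_ne_zero
      _ = _ := by ring
  have hsm : (d.natAbs : ℝ) * E < p :=
    lt_of_le_of_lt (le_mul_of_one_le_left (by positivity) hT10) hbig
  obtain ⟨M, _, _, s, f, W, hn, hD, hs, hW, hW1, hW2, hf⟩ := hC p k d (fun h => by
      have h1 : (p : ℝ) ≤ d.natAbs := by
        exact_mod_cast Nat.le_of_dvd (Int.natAbs_pos.2 hd) (Int.natCast_dvd.1 h)
      nlinarith) (by
      have : (d.natAbs : ℝ) * C ^ 2 ^ k < p := lt_of_le_of_lt (by gcongr) hsm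
      exact_mod_cast this) d ρ ⟨d, rfl⟩ (by exact_mod_cast hd) (by rw [hρ, map_intCast])
  obtain ⟨j, hj⟩ := exists_lift ι f
  have hjf : ∀ x, ι (j x) = f x := RingHom.congr_fun hj
  have hu0 : ∀ u : (𝓞 M)ˣ, (u : M) ≠ 0 := fun u => Units.coe_ne_zero u
  have hs0 : ∀ u : (𝓞 M)ˣ, s (u : M) ≠ 0 := fun u => (map_ne_zero s).2 (hu0 u)
  have hD' : |(discr M : ℝ)| ≤ d.natAbs * E := by
    rw [← Int.cast_abs, ← Nat.cast_natAbs]
    calc ((discr M).natAbs : ℝ) ≤ d.natAbs * (C : ℝ) ^ 2 ^ k := by exact_mod_cast hD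
      _ ≤ _ := by gcongr
  have e2 : (2 : ℝ) ^ finrank ℚ M = T ^ 4 := by rw [hn, hT, ← pow_mul]; ring_nf
  have hY : YY M ^ 2 ≤ T ^ 10 * (d.natAbs * E) := by
    rw [YY, mul_pow, Real.sq_sqrt (abs_nonneg _), pow_succ 2 (finrank ℚ M), e2]
    gcongr
    calc (T ^ 4 * 2) ^ 2 ≤ (T ^ 4 * T) ^ 2 := by gcongr
      _ = _ := by ring
  have hY2 := two_le_YY (M := M)
  have hWn : W.card ≤ finrank ℚ M := by
    refine (card_le_univ W).trans ?_
    rw [← InfinitePlace.sum_mult_eq, ← card_univ, card_eq_sum_ones]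
    exact sum_le_sum fun w _ => w.mult_pos
  refine ⟨j.toRatAlgHom.fieldRange, j.toRatAlgHom.equivFieldRange.toLinearEquiv.finiteDimensional,
    {x | ∃ u : (𝓞 M)ˣ, x = j (u / s u)}, W.card, ?_, hW, hn ▸ hWn, ?_, ?_, ⟨1, by simp⟩, ?_, fun H hH => ?_⟩
  · rw [← j.toRatAlgHom.equivFieldRange.toLinearEquiv.finrank_eq, hn]
  · rintro _ ⟨u, rfl⟩
    obtain ⟨a, b, h1, h2⟩ := hf u
    obtain ⟨v, hv⟩ := exists_conj_unit s u
    refine ⟨a, b, h1 ▸ norm_unit f u, h2 ▸ hv ▸ norm_unit f v, ?_⟩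
    rw [← h1, ← h2, hjf, ← map_mul, div_mul_cancel₀ _ (hs0 u)]
  · rintro _ ⟨u, rfl⟩
    exact ⟨⟨_, rfl⟩, (map_ne_zero j).2 (div_ne_zero (hu0 u) (hs0 u))⟩
  · intro x hx
    choose u hu using hx
    choose y hy using fun k => exists_quot_unit s (u k)
    obtain ⟨a, ha, h⟩ := dep_of_norm_one s W (fun w hw => (hW1 w hw).2) hW2 y fun k => by
      rw [hy, map_div₀, hs, div_mul_div_comm, mul_comm, div_self (mul_ne_zero (hs0 _) (hu0 _))]
    refine ⟨a, ha, ?_⟩
    have := congrArg (fun z : (𝓞 M)ˣ => j (z : M)) h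
    simpa [hu, ← hy, Units.coe_zpow] using this
  · have hp0 : (0 : ℝ) < p := lt_of_le_of_lt (by positivity) hsm
    obtain ⟨U, hU, hU'⟩ := famU s hs W (fun w hw => (hW1 w hw).2) (H / 8) (by
      have h1 : Real.log (YY M ^ 2) ≤ Real.log p := Real.log_le_log (by positivity) (hY.trans hbig.le)
      rw [Real.log_pow] at h1
      push_cast at h1
      linarith)
    refine ⟨U.image j, ?_, ?_, ?_⟩
    · rw [card_image_of_injective _ j.injective]
      have e8 : (8 : ℝ) ^ finrank ℚ M = T ^ 12 := by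
        rw [show (8 : ℝ) = 2 ^ 3 by norm_num, ← pow_mul, mul_comm, pow_mul, e2, ← pow_mul]
      have h8 : (8 : ℝ) ^ W.card ≤ T ^ 12 := e8 ▸ pow_le_pow_right₀ (by norm_num) hWn
      have h6 : YY M ^ 6 ≤ T ^ 30 * ((d : ℝ) ^ 4 * E ^ 3) := by
        calc YY M ^ 6 = (YY M ^ 2) ^ 3 := by ring
          _ ≤ (T ^ 10 * (d.natAbs * E)) ^ 3 := by gcongr
          _ = T ^ 30 * ((d.natAbs : ℝ) ^ 3 * E ^ 3) := by ring
          _ ≤ T ^ 30 * ((d.natAbs : ℝ) ^ 4 * E ^ 3) := by gcongr; norm_num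
          _ = _ := by rw [show (d : ℝ) ^ 4 = ((d : ℝ) ^ 2) ^ 2 by ring, hd2]; ring
      rw [e8] at hU
      calc H ^ W.card = (H / 8) ^ W.card * 8 ^ W.card := by rw [← mul_pow, div_mul_cancel₀ _ (by norm_num)]
        _ ≤ U.card * (YY M ^ 6 * T ^ 12) * T ^ 12 := by gcongr
        _ ≤ U.card * (T ^ 30 * ((d : ℝ) ^ 4 * E ^ 3) * T ^ 12) * T ^ 12 := by gcongr
        _ = _ := by ring
    · intro z hz
      obtain ⟨y, hy, rfl⟩ := mem_image.1 hz
      obtain ⟨u, rfl, hu⟩ := hU' y hy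
      refine ⟨⟨_, rfl⟩, (map_ne_zero j).2 (div_ne_zero (hu0 u) (hs0 u)), Hk.hs ⟨?_, fun φ => ?_⟩ j⟩
      · obtain ⟨y, hy⟩ := exists_quot_unit s u
        exact hy ▸ (y : 𝓞 M).isIntegral_coe
      · rw [← InfinitePlace.apply, map_div₀, ← Real.log_le_iff_le_exp
          (div_pos (InfinitePlace.pos_iff.2 (hu0 u)) (InfinitePlace.pos_iff.2 (hs0 u))),
          Real.log_div (InfinitePlace.pos_iff.2 (hu0 u)).ne' (InfinitePlace.pos_iff.2 (hs0 u)).ne']
        have h1 := abs_le.1 (hu (InfinitePlace.mk φ))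
        have h2 := abs_le.1 (hu ((InfinitePlace.mk φ).comap s))
        rw [InfinitePlace.comap_apply] at h2
        linarith
    · intro z hz z' hz'
      obtain ⟨y, hy, rfl⟩ := mem_image.1 hz
      obtain ⟨u, rfl, -⟩ := hU' y hy
      obtain ⟨y', hy', rfl⟩ := mem_image.1 hz'
      obtain ⟨u', rfl, -⟩ := hU' y' hy'
      refine ⟨u * u'⁻¹, ?_⟩
      rw [← map_div₀]
      congr 1
      have := hu0 u'
      have := hs0 u
      have := hs0 u'
      simp only [map_units_inv, map_mul, map_inv₀, Units.val_mul]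
      field_simp

end Pool.Agent.Tower36
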