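import Pool.Agent.Lib.Szpiro98.Cnt

/-! The number of ideals of bounded norm in a number field of any degree. -/

namespace Pool.Agent.Tower36

open Finset Module NumberField IsDedekindDomain UniqueFactorizationMonoid Pool.Agent.Szpiro98.Cnt

variable {K : Type} [Field K] [NumberField K]

lemma exists_idxN : ∃ idx : Ideal (𝓞 K) → Fin (finrank ℚ K),
    ∀ P Q, Prime P → Prime Q → below P = below Q → idx P = idx Q → P = Q := by
  have key : ∀ q : ℕ, ∃ g : Ideal (𝓞 K) → Fin (finrank ℚ K), Set.InjOn g {P | Prime P ∧ below P = q} := by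
    intro q
    have : Nonempty (Fin (finrank ℚ K)) := ⟨⟨0, finrank_pos⟩⟩
    by_cases hq : q.Prime
    · have h0 : Ideal.span {(q : ℤ)} ≠ ⊥ := by simpa using hq.ne_zero
      have hm : (Ideal.span {(q : ℤ)}).IsMaximal :=
        ((Ideal.span_singleton_prime (by simpa using hq.ne_zero)).2 (Nat.prime_iff_prime_int.1 hq)).isMaximal h0
      have hc := Ideal.card_primesOverFinset_le_finrank (𝓞 K) ℚ K h0
      have hsub : {P : Ideal (𝓞 K) | Prime P ∧ below P = q} ⊆
          ↑(IsDedekindDomain.primesOverFinset (Ideal.span {(q : ℤ)}) (𝓞 K)) := by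
        rintro P ⟨h1, rfl⟩
        rw [Finset.mem_coe, IsDedekindDomain.mem_primesOverFinset_iff h0]
        exact ⟨Ideal.isPrime_of_prime h1, (below_spec h1).2⟩
      obtain ⟨g, -, hg⟩ := (Finset.finite_toSet
        (IsDedekindDomain.primesOverFinset (Ideal.span {(q : ℤ)}) (𝓞 K))).exists_injOn_of_encard_le
        (t := (Set.univ : Set (Fin (finrank ℚ K)))) (by
          rw [Set.encard_coe_eq_coe_finsetCard, Set.encard_univ]
          simpa using hc)
      exact ⟨g, hg.mono hsub⟩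
    · refine ⟨fun _ => ⟨0, finrank_pos⟩, ?_⟩
      rintro P ⟨h1, rfl⟩
      exact absurd (below_spec h1).1 hq
  choose g hg using key
  refine ⟨fun P => g (below P) P, fun P Q hP hQ e h => hg (below P) ⟨hP, rfl⟩ ⟨hQ, e.symm⟩ ?_⟩
  simpa only [e] using h

lemma splitN {α ι : Type} [Fintype ι] [DecidableEq ι] (idx : α → ι) (s : Multiset α) :
    s = ∑ j, s.filter (fun P => idx P = j) := by
  induction s using Multiset.induction_on with
  | empty => simp
  | cons P s ih =>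
    simp only [Multiset.filter_cons, sum_add_distrib, ← ih]
    simp

lemma sum_inv_sq_le (N : ℕ) : ∑ k ∈ Ioo 0 N, ((k : ℝ) ^ 2)⁻¹ ≤ 2 := by
  simpa using sum_Ioo_inv_sq_le (α := ℝ) 0 N

/-- At most `Y ^ 2 * 2 ^ n` nonzero ideals have norm at most `Y`. -/
theorem card_ideals_le (Y : ℝ) (T : Finset (Ideal (𝓞 K)))
    (hT : ∀ I ∈ T, I ≠ ⊥ ∧ (Ideal.absNorm I : ℝ) ≤ Y) : (T.card : ℝ) ≤ Y ^ 2 * 2 ^ finrank ℚ K := by
  classical
  obtain ⟨idx, hidx⟩ := exists_idxN (K := K)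
  let pt : Ideal (𝓞 K) → Fin (finrank ℚ K) → Multiset (Ideal (𝓞 K)) := fun I j =>
    (normalizedFactors I).filter fun P => idx P = j
  let nm : Ideal (𝓞 K) → Fin (finrank ℚ K) → ℕ := fun I j => Ideal.absNorm (pt I j).prod
  have hsp : ∀ I : Ideal (𝓞 K), normalizedFactors I = ∑ j, pt I j := fun I => splitN idx _
  have hnm : ∀ I ∈ T, Ideal.absNorm I = ∏ j, nm I j := by
    intro I hI
    conv_lhs => rw [← Ideal.prod_normalizedFactors_eq_self (hT I hI).1, hsp I]
    rw [Multiset.prod_sum, map_prod]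
  have hpt : ∀ I J j, nm I j = nm J j → pt I j = pt J j := by
    intro I J j e
    refine eq_of_norm {P | Prime P ∧ idx P = j} (fun P hP => hP.1)
      (fun P hP Q hQ h => hidx P Q hP.1 hQ.1 h (hP.2.trans hQ.2.symm)) _ _ ?_ ?_ e
    · intro P hP
      rw [Multiset.mem_filter] at hP
      exact ⟨prime_of_normalized_factor P hP.1, hP.2⟩
    · intro P hP
      rw [Multiset.mem_filter] at hP
      exact ⟨prime_of_normalized_factor P hP.1, hP.2⟩
  have hinj : Set.InjOn nm T := by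
    intro I hI J hJ e
    rw [← Ideal.prod_normalizedFactors_eq_self (hT I hI).1, ← Ideal.prod_normalizedFactors_eq_self (hT J hJ).1,
      hsp I, hsp J]
    congr 1
    exact sum_congr rfl fun j _ => hpt I J j (congrFun e j)
  have hne : ∀ I ∈ T, Ideal.absNorm I ≠ 0 := fun I hI => by
    rw [Ne, Ideal.absNorm_eq_zero_iff]; exact (hT I hI).1
  set N := ⌊Y⌋₊ + 1
  have hsub : T.image nm ⊆ Fintype.piFinset fun _ => Ioo 0 N := by
    intro a ha
    obtain ⟨I, hI, rfl⟩ := mem_image.1 ha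
    refine Fintype.mem_piFinset.2 fun j => mem_Ioo.2 ?_
    have hd : nm I j ∣ Ideal.absNorm I := by rw [hnm I hI]; exact dvd_prod_of_mem _ (mem_univ j)
    have h0 := Nat.pos_of_ne_zero (hne I hI)
    exact ⟨Nat.pos_of_dvd_of_pos hd h0,
      Nat.lt_succ_of_le ((Nat.le_of_dvd h0 hd).trans (Nat.le_floor (hT I hI).2))⟩
  calc (T.card : ℝ) = ∑ I ∈ T, (1 : ℝ) := by simp
    _ ≤ ∑ I ∈ T, Y ^ 2 * ∏ j, ((nm I j : ℝ) ^ 2)⁻¹ := by
      refine sum_le_sum fun I hI => ?_
      have h0 : (0 : ℝ) < Ideal.absNorm I := by exact_mod_cast Nat.pos_of_ne_zero (hne I hI)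
      rw [prod_inv_distrib, prod_pow, ← Nat.cast_prod, ← hnm I hI, ← div_eq_mul_inv, le_div_iff₀ (by positivity),
        one_mul]
      exact pow_le_pow_left₀ h0.le (hT I hI).2 2
    _ = Y ^ 2 * ∑ a ∈ T.image nm, ∏ j, ((a j : ℝ) ^ 2)⁻¹ := by rw [← mul_sum, sum_image hinj]
    _ ≤ Y ^ 2 * ∑ a ∈ Fintype.piFinset fun _ : Fin (finrank ℚ K) => Ioo 0 N, ∏ j, ((a j : ℝ) ^ 2)⁻¹ := by
      refine mul_le_mul_of_nonneg_left (sum_le_sum_of_subset_of_nonneg hsub fun a _ _ => ?_) (sq_nonneg Y)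
      positivity
    _ = Y ^ 2 * ∏ _j : Fin (finrank ℚ K), ∑ k ∈ Ioo 0 N, ((k : ℝ) ^ 2)⁻¹ := by
      rw [prod_univ_sum]
    _ ≤ Y ^ 2 * 2 ^ finrank ℚ K := by
      rw [prod_const, card_univ, Fintype.card_fin]
      gcongr
      exact sum_inv_sq_le N

end Pool.Agent.Tower36
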